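import Mathlib

set_option autoImplicit false

namespace Pool.Agent.Results.MP_fa2b2f_an.NoClosedRep

open Set Filter Topology MeasureTheory
open scoped ENNReal NNReal

variable {X : Type} [MetricSpace X]

/-- the Lipschitz constant of `f` on `s` -/
noncomputable def lipOn (f : X → ℝ) (s : Set X) : ℝ≥0∞ :=
  ⨅ (K : ℝ≥0) (_ : LipschitzOnWith K f s), (K : ℝ≥0∞)

/-- the asymptotic slope -/
noncomputable def lipA (f : X → ℝ) (x : X) : ℝ≥0∞ :=
  ⨅ (r : ℝ) (_ : 0 < r), lipOn f (Metric.ball x r)

variable [MeasurableSpace X]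

/-- the perimeter of `E`: the total variation on `X` of its indicator function -/
noncomputable def per (m : Measure X) (E : Set X) : ℝ≥0∞ :=
  ⨅ (f : ℕ → X → ℝ) (_ : ∀ n, LocallyLipschitz (f n))
    (_ : ∀ (x : X) (r : ℝ), Tendsto
      (fun n => ∫⁻ y in Metric.ball x r, ‖f n y - E.indicator (fun _ => (1 : ℝ)) y‖ₑ ∂m)
      atTop (𝓝 0)),
    liminf (fun n => ∫⁻ y, lipA (f n) y ∂m) atTop

noncomputable def d (x : ℝ) : ℝ := min x (1 - x)

noncomputable def mu : Measure ℝ := Measure.dirac 0 + volume.withDensity fun x => ‖d x‖ₑ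

theorem d_lip : LipschitzWith 1 d := by
  have h : LipschitzWith 1 (fun x : ℝ => 1 - x) :=
    LipschitzWith.of_dist_le_mul fun x y => by rw [dist_sub_left]; simp
  have h2 := LipschitzWith.id.min h
  rw [max_self] at h2
  exact h2

theorem d_pos {x : ℝ} : 0 < d x ↔ x ∈ Ioo (0 : ℝ) 1 := by simp [d]

theorem mu_T (c : ℝ) (hc : 0 < c) : mu {x | 0 < d x ∧ d x ≤ c} ≤ ENNReal.ofReal (2 * c * c) := by
  have hm : MeasurableSet {x | 0 < d x ∧ d x ≤ c} :=
    d_lip.continuous.measurable (measurableSet_Ioc (a := (0 : ℝ)) (b := c))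
  rw [mu, Measure.add_apply, Measure.dirac_apply' _ hm, indicator_of_notMem (by simp [d]), zero_add,
    withDensity_apply _ hm]
  calc _ ≤ ∫⁻ _ in {x | 0 < d x ∧ d x ≤ c}, ENNReal.ofReal c := by
        refine setLIntegral_mono' hm fun x hx => ?_
        rw [Real.enorm_eq_ofReal hx.1.le]
        exact ENNReal.ofReal_le_ofReal hx.2
    _ ≤ ENNReal.ofReal c * (volume (Icc 0 c) + volume (Icc (1 - c) 1)) := by
        rw [setLIntegral_const]
        gcongr
        refine (measure_mono fun x hx => ?_).trans (measure_union_le _ _)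
        obtain ⟨h1, h2⟩ := hx
        rw [d_pos] at h1
        rcases min_le_iff.1 h2 with h | h
        · exact Or.inl ⟨h1.1.le, h⟩
        · exact Or.inr ⟨by linarith, h1.2.le⟩
    _ = _ := by
        rw [Real.volume_Icc, Real.volume_Icc, ← ENNReal.ofReal_add (by linarith) (by linarith),
          ← ENNReal.ofReal_mul hc.le]
        congr 1
        ring

theorem per_zero : per mu (Ioo 0 1) = 0 := by
  let f : ℕ → ℝ → ℝ := fun n x => max 0 (min 1 ((n + 1) * d x - 1))
  have hp : ∀ n : ℕ, (0 : ℝ) < n + 1 := fun n => by positivity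
  have hf : ∀ n : ℕ, LipschitzWith (n + 1) (f n) := by
    intro n
    refine LipschitzWith.const_max (LipschitzWith.const_min ?_ _) _
    refine LipschitzWith.of_dist_le_mul fun x y => ?_
    have := d_lip.dist_le_mul x y
    rw [Real.dist_eq, show (n + 1) * d x - 1 - ((n + 1) * d y - 1) = (n + 1) * (d x - d y) by ring,
      abs_mul, abs_of_pos (hp n)]
    push_cast at this ⊢
    rw [one_mul, Real.dist_eq] at this
    gcongr
  have h0 : ∀ (n : ℕ) x, d x ≤ 1 / (n + 1) → f n x = 0 := by
    intro n x h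
    rw [le_div_iff₀ (hp n)] at h
    exact max_eq_left (min_le_of_right_le (by linarith))
  have h1 : ∀ (n : ℕ) x, 2 / (n + 1) ≤ d x → f n x = 1 := by
    intro n x h
    rw [div_le_iff₀ (hp n)] at h
    simp only [f]
    rw [min_eq_left (by linarith), max_eq_right zero_le_one]
  let T : ℕ → Set ℝ := fun n => {x | 0 < d x ∧ d x ≤ 2 / (n + 1)}
  have hT : ∀ n, MeasurableSet (T n) := fun n =>
    d_lip.continuous.measurable (measurableSet_Ioc (a := (0 : ℝ)))
  have hlim : Tendsto (fun n : ℕ => ((n + 1 : ℝ≥0) : ℝ≥0∞) * mu (T n)) atTop (𝓝 0) := by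
    have h2 : Tendsto (fun n : ℕ => ENNReal.ofReal (8 * (1 / ((n : ℝ) + 1)))) atTop (𝓝 0) := by
      simpa using ENNReal.tendsto_ofReal (tendsto_one_div_add_atTop_nhds_zero_nat.const_mul (8 : ℝ))
    refine tendsto_of_tendsto_of_tendsto_of_le_of_le tendsto_const_nhds h2 (fun _ => zero_le)
      fun n => ?_
    refine (mul_le_mul_right (mu_T _ (by positivity)) _).trans (le_of_eq ?_)
    rw [← ENNReal.ofReal_coe_nnreal, ← ENNReal.ofReal_mul (by positivity)]
    congr 1
    have := hp n
    push_cast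
    field_simp
    ring
  refine le_antisymm (iInf_le_of_le f (iInf_le_of_le (fun n => (hf n).locallyLipschitz)
    (iInf_le_of_le (fun x r => ?_) (le_of_eq (Tendsto.liminf_eq ?_))))) zero_le
  · refine tendsto_of_tendsto_of_tendsto_of_le_of_le tendsto_const_nhds hlim (fun _ => zero_le)
      fun n => ?_
    refine (setLIntegral_le_lintegral _ _).trans ?_
    rw [← lintegral_indicator_const (hT n)]
    refine lintegral_mono fun y => ?_
    by_cases hy : y ∈ T n
    · rw [indicator_of_mem hy, indicator_of_mem (d_pos.1 hy.1)]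
      refine le_trans ?_ (show (1 : ℝ≥0∞) ≤ _ by simp)
      rw [← ofReal_norm, ENNReal.ofReal_le_one, Real.norm_eq_abs, abs_le]
      have h3 : 0 ≤ f n y := le_max_left _ _
      have h4 : f n y ≤ 1 := max_le zero_le_one (min_le_left _ _)
      constructor <;> linarith
    · rcases not_and_or.1 hy with h | h
      · rw [indicator_of_notMem (mt d_pos.2 h), h0 n y ((not_lt.1 h).trans (by positivity))]
        simp
      · rw [indicator_of_mem (d_pos.1 (lt_trans (by positivity) (not_le.1 h))),
          h1 n y (not_le.1 h).le]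
        simp
  · refine tendsto_of_tendsto_of_tendsto_of_le_of_le tendsto_const_nhds hlim (fun _ => zero_le)
      fun n => ?_
    rw [← lintegral_indicator_const (hT n)]
    refine lintegral_mono fun y => ?_
    have key : ∀ r c : ℝ, 0 < r → (∀ z ∈ Metric.ball y r, f n z = c) → lipA (f n) y ≤ 0 := by
      intro r c hr h
      refine iInf₂_le_of_le r hr (iInf₂_le_of_le 0 ?_ le_rfl)
      intro a ha b hb
      simp [h a ha, h b hb]
    have hd : ∀ z, |d z - d y| ≤ dist z y := fun z => by
      simpa [Real.dist_eq] using d_lip.dist_le_mul z y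
    by_cases hy : y ∈ T n
    · rw [indicator_of_mem hy]
      exact iInf₂_le_of_le 1 one_pos (iInf₂_le_of_le _ (hf n).lipschitzOnWith le_rfl)
    · rw [indicator_of_notMem hy]
      rcases not_and_or.1 hy with h | h
      · refine key (1 / (n + 1)) 0 (by positivity) fun z hz => h0 n z ?_
        have := (abs_le.1 (hd z)).2
        rw [Metric.mem_ball] at hz
        linarith [not_lt.1 h]
      · refine key (d y - 2 / (n + 1)) 1 (by linarith [not_le.1 h]) fun z hz => h1 n z ?_
        have := (abs_le.1 (hd z)).1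
        rw [Metric.mem_ball] at hz
        linarith

theorem vol_ac : (volume : Measure ℝ) ≪ mu := by
  refine Measure.AbsolutelyContinuous.trans ?_ (Measure.absolutelyContinuous_of_le
    (Measure.le_add_left le_rfl))
  refine withDensity_absolutelyContinuous' d_lip.continuous.measurable.enorm.aemeasurable ?_
  have : ∀ᵐ x ∂(volume : Measure ℝ), x ∉ ({0, 1} : Set ℝ) :=
    compl_mem_ae_iff.2 ((toFinite _).measure_zero _)
  filter_upwards [this] with x hx h
  rw [enorm_eq_zero, d, min_eq_iff] at h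
  rcases h with h | h
  · exact hx (Or.inl h.1)
  · exact hx (Or.inr (by linarith [h.1] : x = 1))

theorem result : ∃ (m : Measure ℝ) (Ω : Set ℝ),
    (∀ B : Set ℝ, Bornology.IsBounded B → m B < ⊤) ∧ m.IsOpenPosMeasure ∧
    IsOpen Ω ∧ IsConnected Ω ∧ Bornology.IsBounded Ω ∧
    ∀ l : ℝ≥0, 0 < l → ∃ E : Set ℝ, MeasurableSet E ∧ E ⊆ Ω ∧
      (∀ A : Set ℝ, MeasurableSet A → A ⊆ Ω →
        per m E + l * m (Ω \ E) ≤ per m A + l * m (Ω \ A)) ∧
      (∀ A : Set ℝ, MeasurableSet A →
        per m E + l * m (symmDiff Ω E) ≤ per m A + l * m (symmDiff Ω A)) ∧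
      ∀ C : Set ℝ, IsClosed C → 0 < m (symmDiff E C) := by
  refine ⟨mu, Ioo 0 1, fun B hB => ?_, vol_ac.isOpenPosMeasure, isOpen_Ioo, isConnected_Ioo one_pos,
    Metric.isBounded_Ioo _ _, fun l _ => ⟨Ioo 0 1, measurableSet_Ioo, Subset.rfl,
      fun A _ _ => by simp [per_zero], fun A _ => by simp [per_zero], fun C hC => ?_⟩⟩
  · haveI : IsLocallyFiniteMeasure (volume.withDensity fun x => ‖d x‖ₑ) :=
      IsLocallyFiniteMeasure.withDensity_coe d_lip.continuous.nnnorm
    rw [mu, Measure.add_apply]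
    exact ENNReal.add_lt_top.2 ⟨measure_lt_top _ _, hB.measure_lt_top⟩
  · rw [pos_iff_ne_zero]
    intro h
    have h1 : (0 : ℝ) ∉ C := by
      intro h0
      have : mu {0} ≤ mu (symmDiff (Ioo 0 1) C) :=
        measure_mono (singleton_subset_iff.2 (Or.inr ⟨h0, by simp⟩))
      rw [h] at this
      simp [mu] at this
    have h2 : Ioo (0 : ℝ) 1 \ C = ∅ :=
      (isOpen_Ioo.sdiff hC).eq_empty_of_measure_zero (μ := volume)
        (vol_ac (measure_mono_null (fun x hx => Or.inl hx) h))
    refine h1 (closure_minimal (sdiff_eq_empty.1 h2) hC ?_)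
    rw [closure_Ioo zero_ne_one]
    simp

end Pool.Agent.Results.MP_fa2b2f_an.NoClosedRep
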